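import Mathlib
import Pool.Agent.H694R3.Dj3

set_option autoImplicit false

open Filter Topology Set TopologicalSpace

namespace Pool.Agent.Y559.DJ

open Pool.Agent.H694R3.Dj

universe u

section factors

variable {A B Z : Type*} [TopologicalSpace A] [TopologicalSpace B] [TopologicalSpace Z]

/-- Disjointness passes to factors. -/
lemma disj_factor {f : A → A} {g : B → B} {h : Z → Z} (π : A → B) (hπ : Continuous π)
    (hs : Function.Surjective π) (he : ∀ a, π (f a) = g (π a)) (hd : Disj f h) : Disj g h := by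
  intro J hJ hi h1 h2
  have key : {q : A × Z | (π q.1, q.2) ∈ J} = univ := by
    refine hd _ (hJ.preimage (by fun_prop)) ?_ ?_ ?_
    · rintro ⟨a, z⟩ hq
      have := hi _ hq
      simpa [Prod.map, he] using this
    · rw [eq_univ_iff_forall]
      intro a
      have : π a ∈ Prod.fst '' J := by rw [h1]; trivial
      obtain ⟨q, hq, hq2⟩ := this
      refine ⟨(a, q.2), ?_, rfl⟩
      change (π a, q.2) ∈ J
      rw [← hq2]
      exact hq
    · rw [eq_univ_iff_forall]
      intro z
      have : z ∈ Prod.snd '' J := by rw [h2]; trivial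
      obtain ⟨q, hq, hq2⟩ := this
      obtain ⟨a, ha⟩ := hs q.1
      refine ⟨(a, z), ?_, rfl⟩
      change (π a, z) ∈ J
      rw [ha, ← hq2]
      exact hq
  rw [eq_univ_iff_forall]
  rintro ⟨b, z⟩
  obtain ⟨a, rfl⟩ := hs b
  have : (a, z) ∈ {q : A × Z | (π q.1, q.2) ∈ J} := by rw [key]; trivial
  exact this

end factors

section main

variable {X Y Z : Type u} [TopologicalSpace X] [CompactSpace X] [TopologicalSpace.MetrizableSpace X]
  [TopologicalSpace Y] [CompactSpace Y] [TopologicalSpace.MetrizableSpace Y]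
  [TopologicalSpace Z] [CompactSpace Z] [TopologicalSpace.MetrizableSpace Z]
  (T : X ≃ₜ X) (S : Y ≃ₜ Y) (R : Z ≃ₜ Z)

lemma step1 (hS : Disj S R) (hR : IsMin R) (J : Set ((X × Y) × Z)) (hJ : IsClosed J)
    (hi : Inv (Prod.map (Prod.map T S) R) J) (h1 : Prod.fst '' J = univ)
    (X0 : Set X) (hX0 : MinSet T X0) (y : Y) (z : Z) : ∃ x ∈ X0, ((x, y), z) ∈ J := by
  let K : Set (Y × Z) := (fun q : (X × Y) × Z => (q.1.2, q.2)) '' (J ∩ {q | q.1.1 ∈ X0})
  have hK : K = univ := by
    refine hS K ?_ ?_ ?_ ?_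
    · refine ((hJ.inter (hX0.1.preimage (by fun_prop))).isCompact.image ?_).isClosed
      fun_prop
    · rintro _ ⟨q, ⟨hq1, hq2⟩, rfl⟩
      exact ⟨_, ⟨hi q hq1, hX0.2.1 _ hq2⟩, rfl⟩
    · rw [eq_univ_iff_forall]
      intro y
      obtain ⟨x, hx⟩ := hX0.2.2.1
      have : (x, y) ∈ Prod.fst '' J := by rw [h1]; trivial
      obtain ⟨q, hq, hq2⟩ := this
      refine ⟨(q.1.2, q.2), ⟨q, ⟨hq, ?_⟩, rfl⟩, ?_⟩
      · change q.1.1 ∈ X0
        rw [hq2]
        exact hx
      · change q.1.2 = y
        rw [hq2]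
    · refine hR.2 _ ?_ ?_ ?_
      · refine IsCompact.isClosed ?_
        refine IsCompact.image ?_ continuous_snd
        refine ((hJ.inter (hX0.1.preimage (by fun_prop))).isCompact.image ?_)
        fun_prop
      · rintro _ ⟨_, ⟨q, ⟨hq1, hq2⟩, rfl⟩, rfl⟩
        exact ⟨_, ⟨_, ⟨hi q hq1, hX0.2.1 _ hq2⟩, rfl⟩, rfl⟩
      · obtain ⟨x, hx⟩ := hX0.2.2.1
        have : (x, y) ∈ Prod.fst '' J := by rw [h1]; trivial
        obtain ⟨q, hq, hq2⟩ := this
        refine ⟨_, ⟨_, ⟨q, ⟨hq, ?_⟩, rfl⟩, rfl⟩⟩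
        change q.1.1 ∈ X0
        rw [hq2]
        exact hx
  have : (y, z) ∈ K := by rw [hK]; trivial
  obtain ⟨q, ⟨hq1, hq2⟩, hq3⟩ := this
  rw [Prod.ext_iff] at hq3
  obtain ⟨e1, e2⟩ := hq3
  simp only at e1 e2
  refine ⟨q.1.1, hq2, ?_⟩
  rw [← e1, ← e2]
  exact hq1

lemma step2 (hT : DisjM T) (hS : Disj S R) (hR : IsMin R) (hDX : DM T)
    (J : Set ((X × Y) × Z)) (hJ : IsClosed J)
    (hi : Inv (Prod.map (Prod.map T S) R) J) (h1 : Prod.fst '' J = univ)
    (W : Set (Y × Z)) (hW : MinSet (S.prodCongr R) W) (x : X) :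
    W ⊆ {p | ((x, p.1), p.2) ∈ J} := by
  have : Nonempty X := ⟨x⟩
  have hWc : CompactSpace W := isCompact_iff_compactSpace.1 hW.1.isCompact
  let JW : Set (X × W) := {q | ((q.1, q.2.1.1), q.2.1.2) ∈ J}
  have hJWc : IsClosed JW := hJ.preimage (by fun_prop)
  obtain ⟨X0, -, hX0⟩ := exists_minSet T (univ : Set X) isClosed_univ (fun _ _ => trivial)
    univ_nonempty
  have hinv : Inv (Prod.map T ((S.prodCongr R).subtype hW.mem_iff : W ≃ₜ W)) JW := by
    intro q hq
    exact hi _ hq
  have hJW : JW = univ := by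
    refine hT W ((S.prodCongr R).subtype hW.mem_iff) hW.isMin JW hJWc hinv ?_ ?_
    · apply hDX
      · exact (hJWc.isCompact.image continuous_fst).isClosed
      · intro A hA
        refine hA.subset_of_inter (hJWc.isCompact.image continuous_fst).isClosed ?_ ?_
        · rintro _ ⟨q, hq, rfl⟩
          exact ⟨_, hinv q hq, rfl⟩
        · obtain ⟨p, hp⟩ := hW.2.2.1
          obtain ⟨x', hx', h⟩ := step1 T S R hS hR J hJ hi h1 A hA p.1 p.2
          exact ⟨x', hx', (x', ⟨p, hp⟩), h, rfl⟩
    · rw [eq_univ_iff_forall]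
      intro w
      obtain ⟨x', hx', h⟩ := step1 T S R hS hR J hJ hi h1 X0 hX0 w.1.1 w.1.2
      exact ⟨(x', w), h, rfl⟩
  intro p hp
  have : (x, (⟨p, hp⟩ : W)) ∈ JW := by rw [hJW]; trivial
  exact this

lemma step3 [Nonempty Y] (hS : Disj S R) (hR : IsMin R) (hDY : DM S) : DM (S.prodCongr R) := by
  intro Q hQ hQm
  let U : Set (Y × Z) := ⋃₀ {A | MinSet (S.prodCongr R) A}
  have hUQ : closure U ⊆ Q := closure_minimal (sUnion_subset fun A hA => hQm A hA) hQ
  have hUi : Inv (Prod.map S R) U := by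
    rintro x ⟨A, hA, hx⟩
    exact ⟨A, hA, hA.2.1 x hx⟩
  have hUi' : Inv (Prod.map S R) (closure U) := by
    intro x hx
    exact map_mem_closure (S.prodCongr R).continuous hx (fun y hy => hUi y hy)
  have hcl : IsCompact (closure U) := isClosed_closure.isCompact
  have h : closure U = univ := by
    refine hS _ isClosed_closure hUi' ?_ ?_
    · apply hDY
      · exact (hcl.image continuous_fst).isClosed
      · intro A hA
        refine hA.subset_of_inter (hcl.image continuous_fst).isClosed ?_ ?_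
        · rintro _ ⟨q, hq, rfl⟩
          exact ⟨_, hUi' q hq, rfl⟩
        · have := hR.1
          obtain ⟨W, hWs, hW⟩ := exists_minSet (S.prodCongr R) (A ×ˢ (univ : Set Z))
            (hA.1.prod isClosed_univ) (fun q hq => ⟨hA.2.1 _ hq.1, trivial⟩)
            (hA.2.2.1.prod univ_nonempty)
          obtain ⟨w, hw⟩ := hW.2.2.1
          exact ⟨w.1, (hWs hw).1, w, subset_closure ⟨W, hW, hw⟩, rfl⟩
    · refine hR.2 _ (hcl.image continuous_snd).isClosed ?_ ?_
      · rintro _ ⟨q, hq, rfl⟩
        exact ⟨_, hUi' q hq, rfl⟩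
      · have := hR.1
        obtain ⟨W, -, hW⟩ := exists_minSet (S.prodCongr R) (univ : Set (Y × Z)) isClosed_univ
          (fun _ _ => trivial) univ_nonempty
        obtain ⟨w, hw⟩ := hW.2.2.1
        exact ⟨w.2, w, subset_closure ⟨W, hW, hw⟩, rfl⟩
  rw [h] at hUQ
  exact eq_univ_of_univ_subset hUQ

/-- **The multiplication theorem.** If `X` is disjoint from all minimal systems, `Y` has dense
minimal sets, `Z` is minimal and `Y` is disjoint from `Z`, then `X × Y` is disjoint from `Z`. -/
lemma mul_disj [Nonempty Y] (hT : DisjM T) (hS : Disj S R) (hR : IsMin R) (hDY : DM S) :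
    Disj (T.prodCongr S) R := by
  have hDX : DM T := DisjM.dm T hT
  intro J hJ hi h1 h2
  rw [eq_univ_iff_forall]
  rintro ⟨⟨x, y⟩, z⟩
  have h : {p : Y × Z | ((x, p.1), p.2) ∈ J} = univ :=
    step3 S R hS hR hDY _ (hJ.preimage (by fun_prop))
      (fun W hW => step2 T S R hT hS hR hDX J hJ hi h1 W hW x)
  have : (y, z) ∈ {p : Y × Z | ((x, p.1), p.2) ∈ J} := by rw [h]; trivial
  exact this

/-- Products of a system disjoint from all minimal systems and a system with dense minimal sets have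
dense minimal sets. -/
lemma dm_prod [Nonempty X] (hT : DisjM T) (hDY : DM S) : DM (T.prodCongr S) := by
  have hDX : DM T := DisjM.dm T hT
  intro P hP hPm
  rw [eq_univ_iff_forall]
  rintro ⟨x, y⟩
  have h : {y : Y | ∀ x : X, (x, y) ∈ P} = univ := by
    apply hDY
    · have : {y : Y | ∀ x : X, (x, y) ∈ P} = ⋂ x : X, {y : Y | (x, y) ∈ P} := by
        ext y; simp
      rw [this]
      exact isClosed_iInter fun x => hP.preimage (by fun_prop)
    · intro B hB
      have hBc : CompactSpace B := isCompact_iff_compactSpace.1 hB.1.isCompact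
      have h3 : DM (T.prodCongr (S.subtype hB.mem_iff : B ≃ₜ B)) :=
        step3 T (S.subtype hB.mem_iff) (hT B (S.subtype hB.mem_iff) hB.isMin) hB.isMin hDX
      have h4 : {q : X × B | (q.1, (q.2 : Y)) ∈ P} = univ := by
        apply h3
        · exact hP.preimage (by fun_prop)
        · intro A hA
          have h5 : MinSet (T.prodCongr S) ((fun q : X × B => (q.1, (q.2 : Y))) '' A) := by
            have hc : Continuous (fun q : X × B => (q.1, (q.2 : Y))) := by fun_prop
            refine ⟨(hA.1.isCompact.image hc).isClosed, ?_, hA.2.2.1.image _, ?_⟩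
            · rintro _ ⟨q, hq, rfl⟩
              exact ⟨_, hA.2.1 q hq, rfl⟩
            · intro C hCA hC hCi hCn
              have h6 : A ⊆ {q : X × B | (q.1, (q.2 : Y)) ∈ C} := by
                refine hA.subset_of_inter (hC.preimage hc) ?_ ?_
                · intro q hq
                  exact hCi _ hq
                · obtain ⟨c, hc'⟩ := hCn
                  obtain ⟨q, hq, rfl⟩ := hCA hc'
                  exact ⟨q, hq, hc'⟩
              refine Subset.antisymm hCA ?_
              rintro _ ⟨q, hq, rfl⟩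
              exact h6 hq
          intro q hq
          exact hPm _ h5 ⟨q, hq, rfl⟩
      intro y hy x
      have : (x, (⟨y, hy⟩ : B)) ∈ {q : X × B | (q.1, (q.2 : Y)) ∈ P} := by rw [h4]; trivial
      exact this
  have : y ∈ {y : Y | ∀ x : X, (x, y) ∈ P} := by rw [h]; trivial
  exact this x

end main

section products

variable {I : Type u} {X : I → Type u} [∀ i, TopologicalSpace (X i)] [∀ i, CompactSpace (X i)]
  [∀ i, TopologicalSpace.MetrizableSpace (X i)] [∀ i, Nonempty (X i)]
  {Y Z : Type u} [TopologicalSpace Y] [CompactSpace Y] [TopologicalSpace.MetrizableSpace Y]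
  [Nonempty Y]
  [TopologicalSpace Z] [CompactSpace Z] [TopologicalSpace.MetrizableSpace Z]
  (T : ∀ i, X i ≃ₜ X i) (S : Y ≃ₜ Y) (R : Z ≃ₜ Z)

/-- Finite partial products, as quotients of the full product. -/
lemma partial_prod (hT : ∀ i, DisjM (T i)) (hDY : DM S) (hS : Disj S R) (hR : IsMin R)
    (F : Finset I) :
    ∃ (W : Type u) (_ : TopologicalSpace W) (_ : CompactSpace W)
      (_ : TopologicalSpace.MetrizableSpace W) (_ : Nonempty W) (V : W ≃ₜ W)
      (π : ((∀ i, X i) × Y) → W),
      Continuous π ∧ Function.Surjective π ∧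
      (∀ p, π (fun i => T i (p.1 i), S p.2) = V (π p)) ∧
      (∀ p q, π p = π q ↔ (∀ i ∈ F, p.1 i = q.1 i) ∧ p.2 = q.2) ∧
      DM V ∧ Disj V R := by
  classical
  induction F using Finset.induction_on with
  | empty =>
    refine ⟨Y, inferInstance, inferInstance, inferInstance, inferInstance, S, Prod.snd,
      continuous_snd, Prod.snd_surjective, fun p => rfl, fun p q => by simp, hDY, hS⟩
  | insert a F ha ih =>
    obtain ⟨W, i1, i2, i3, i4, V, π, hc, hs, he, hk, hD, hd⟩ := ih
    refine ⟨X a × W, inferInstance, inferInstance, inferInstance, inferInstance,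
      (T a).prodCongr V, fun p => (p.1 a, π p), by fun_prop, ?_, ?_, ?_,
      dm_prod (T a) V (hT a) hD, mul_disj (T a) V R (hT a) hd hR hD⟩
    · rintro ⟨u, w⟩
      obtain ⟨⟨x, y⟩, rfl⟩ := hs w
      refine ⟨(Function.update x a u, y), ?_⟩
      refine Prod.ext (by simp) ?_
      refine (hk _ _).2 ⟨fun i hi => ?_, rfl⟩
      have : i ≠ a := fun h => ha (h ▸ hi)
      simp [Function.update_of_ne this]
    · intro p
      exact Prod.ext rfl (he p)
    · intro p q
      rw [Prod.ext_iff]
      simp only [hk, Finset.mem_insert, forall_eq_or_imp]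
      tauto

/-- The product of any family of systems disjoint from all minimal systems and of a system `Y` with
dense minimal sets is disjoint from every minimal system from which `Y` is disjoint. -/
lemma prod_disj_of (hT : ∀ i, DisjM (T i)) (hDY : DM S) (hS : Disj S R) (hR : IsMin R) :
    Disj (Prod.map (fun (x : ∀ i, X i) i => T i (x i)) S) R := by
  classical
  intro J hJ hi h1 h2
  have key : ∀ (F : Finset I) (p : (∀ i, X i) × Y) (z : Z), ∃ q : (∀ i, X i) × Y,
      (∀ i ∈ F, q.1 i = p.1 i) ∧ q.2 = p.2 ∧ (q, z) ∈ J := by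
    intro F p z
    obtain ⟨W, i1, i2, i3, i4, V, π, hc, hs, he, hk, hD, hd⟩ :=
      partial_prod T S R hT hDY hS hR F
    have hK : (fun q : ((∀ i, X i) × Y) × Z => (π q.1, q.2)) '' J = univ := by
      have hc' : Continuous (fun q : ((∀ i, X i) × Y) × Z => (π q.1, q.2)) := by fun_prop
      refine hd _ (hJ.isCompact.image hc').isClosed ?_ ?_ ?_
      · rintro _ ⟨q, hq, rfl⟩
        refine ⟨_, hi q hq, ?_⟩
        exact Prod.ext (he q.1) rfl
      · rw [eq_univ_iff_forall]
        intro w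
        obtain ⟨p', rfl⟩ := hs w
        have : p' ∈ Prod.fst '' J := by rw [h1]; trivial
        obtain ⟨q, hq, rfl⟩ := this
        exact ⟨_, ⟨q, hq, rfl⟩, rfl⟩
      · rw [eq_univ_iff_forall]
        intro z'
        have : z' ∈ Prod.snd '' J := by rw [h2]; trivial
        obtain ⟨q, hq, rfl⟩ := this
        exact ⟨_, ⟨q, hq, rfl⟩, rfl⟩
    have : (π p, z) ∈ (fun q : ((∀ i, X i) × Y) × Z => (π q.1, q.2)) '' J := by rw [hK]; trivial
    obtain ⟨⟨q, z'⟩, hq, hq2⟩ := this
    simp only [Prod.mk.injEq] at hq2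
    obtain ⟨e1, rfl⟩ := hq2
    obtain ⟨e2, e3⟩ := (hk _ _).1 e1
    exact ⟨q, e2, e3, hq⟩
  rw [eq_univ_iff_forall]
  rintro ⟨p, z⟩
  choose q hq1 hq2 hq3 using fun F : Finset I => key F p z
  have hlim : Tendsto (fun F : Finset I => (q F, z)) atTop (𝓝 (p, z)) := by
    refine Tendsto.prodMk_nhds ?_ tendsto_const_nhds
    have h3 : Tendsto (fun F : Finset I => (q F).1) atTop (𝓝 p.1) := by
      rw [tendsto_pi_nhds]
      intro i
      refine tendsto_const_nhds.congr' ?_
      filter_upwards [eventually_ge_atTop {i}] with F hF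
      exact (hq1 F i (hF (Finset.mem_singleton_self i))).symm
    have h4 : Tendsto (fun F : Finset I => (q F).2) atTop (𝓝 p.2) := by
      refine tendsto_const_nhds.congr' (Eventually.of_forall fun F => (hq2 F).symm)
    exact h3.prodMk_nhds h4
  exact hJ.mem_of_tendsto hlim (Eventually.of_forall hq3)

end products

/-- The one-point system. -/
lemma dm_punit : DM (Homeomorph.refl PUnit.{u + 1} : PUnit.{u + 1} ≃ₜ PUnit.{u + 1}) := by
  intro P hP hPm
  have h : MinSet (Homeomorph.refl PUnit.{u + 1} : PUnit.{u + 1} ≃ₜ PUnit.{u + 1}) univ := by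
    refine ⟨isClosed_univ, fun _ _ => trivial, univ_nonempty, fun B _ _ _ hB => ?_⟩
    obtain ⟨b, hb⟩ := hB
    rw [eq_univ_iff_forall]
    intro c
    exact hb
  exact eq_univ_of_univ_subset (hPm _ h)

lemma disj_punit {Z : Type u} [TopologicalSpace Z] (R : Z → Z) :
    Disj (Homeomorph.refl PUnit.{u + 1} : PUnit.{u + 1} ≃ₜ PUnit.{u + 1}) R := by
  intro J hJ hi h1 h2
  rw [eq_univ_iff_forall]
  rintro ⟨a, z⟩
  have : z ∈ Prod.snd '' J := by rw [h2]; trivial
  obtain ⟨q, hq, rfl⟩ := this
  exact hq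

end Pool.Agent.Y559.DJ
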